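import Mathlib
import Pool.Agent.V11211.BPBDefs
import Pool.Agent.V11211.BPBAbs
import Pool.Agent.V11211.BPBSpace
import Pool.Agent.V11211.BPBDomain
import Pool.Agent.V11211.BPBRange

/-!
# MP_7aa09c_an, Q2

The Bishop-Phelps-Bollobás property does not pass to one-complemented subspaces of the
range space, over the reals and over the complex numbers.
-/

namespace Pool.Agent.Results.MP_7aa09c_an.BPBpNotInherited

open Pool.Agent.V11211.BPBDefs Pool.Agent.V11211.BPBSpace Pool.Agent.V11211.BPBDomain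
  Pool.Agent.V11211.BPBRange

theorem result : ∀ (𝕜 : Type) [RCLike 𝕜],
    ∃ (X Y : Type) (_ : NormedAddCommGroup X) (_ : NormedSpace 𝕜 X) (_ : CompleteSpace X)
      (_ : NormedAddCommGroup Y) (_ : NormedSpace 𝕜 Y) (_ : CompleteSpace Y)
      (Y₁ : Submodule 𝕜 Y), OneComplemented 𝕜 Y₁ ∧ BPBp 𝕜 X Y ∧ ¬ BPBp 𝕜 X Y₁ := by
  intro 𝕜 _
  have : Nontrivial (Esp 𝕜) := nontrivial
  refine ⟨X1 𝕜, Ysp 𝕜 (Esp 𝕜), inferInstance, inferInstance, inferInstance, inferInstance,
    inferInstance, inferInstance, Pool.Agent.V11211.BPBAbs.Y1 inc, ?_, ?_, ?_⟩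
  · exact Pool.Agent.V11211.BPBAbs.oneComplemented inc snd norm_inc norm_snd_apply_le snd_inc
  · exact bpb_of_scalar (Esp 𝕜) scalarBPB
  · intro h
    exact fail1 (Pool.Agent.V11211.BPBAbs.bpb_transfer inc snd norm_inc snd_inc h)

end Pool.Agent.Results.MP_7aa09c_an.BPBpNotInherited
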